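import Pool.Agent.Helper78.KOne

/-!
MP_d4e048, own statement beside the frozen one. `K_1(A)` is the direct limit (Mathlib's
`DirectLimit`) of the groups `inv(M_n(A)) / inv_0(M_n(A))`, `n ≥ 1`, under `x ↦ diag(x, 1)`, and for
every purely infinite simple unital complex Banach algebra the natural group homomorphism
`inv(A) / inv_0(A) → K_1(A)` is an isomorphism.
-/

set_option autoImplicit false

namespace Pool.Agent.Results.MP_d4e048_an.NaturalMapIso

universe u v w

section Components

variable (G : Type v) [Group G] [TopologicalSpace G] [IsTopologicalGroup G]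

/-- The connected component of `1` of a topological group is a normal subgroup. -/
instance normal_connectedComponentOfOne : (Subgroup.connectedComponentOfOne G).Normal where
  conj_mem n hn g := by
    have hc : Continuous (fun x : G => g * x * g⁻¹) := by fun_prop
    have h := hc.image_connectedComponent_subset (1 : G)
    have h1 : g * n * g⁻¹ ∈ connectedComponent (g * 1 * g⁻¹) := h ⟨n, hn, rfl⟩
    rw [mul_one, mul_inv_cancel] at h1
    exact h1

/-- The group `G / G_0`, where `G_0` is the connected component of `1` of the topological
group `G`. -/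
def ComponentGroup : Type v := G ⧸ Subgroup.connectedComponentOfOne G

instance group_ComponentGroup : Group (ComponentGroup G) :=
  QuotientGroup.Quotient.group (Subgroup.connectedComponentOfOne G)

variable {G} {H : Type w} [Group H] [TopologicalSpace H] [IsTopologicalGroup H]

/-- A continuous group homomorphism `G → H` induces a group homomorphism `G / G_0 → H / H_0`. -/
def ComponentGroup.map (f : G →* H) (hf : Continuous f) : ComponentGroup G →* ComponentGroup H :=
  QuotientGroup.map _ _ f (fun g hg => by
    have h := hf.image_connectedComponent_subset (1 : G)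
    have h1 : f g ∈ connectedComponent (f 1) := h ⟨g, hg, rfl⟩
    rw [map_one] at h1
    exact h1)

lemma ComponentGroup.map_mk (f : G →* H) (hf : Continuous f) (g : G) :
    ComponentGroup.map f hf (QuotientGroup.mk g) = QuotientGroup.mk (f g) := rfl

end Components

section Pad

variable (A : Type u) [Ring A]

/-- The embedding `M_n(A) → M_m(A)`, `x ↦ diag(x, 1)`, for `n ≤ m`: the upper left `n × n` block is
`x`, the remaining diagonal entries are `1` and all other entries are `0`. -/
def pad {n m : ℕ} (x : Matrix (Fin n) (Fin n) A) : Matrix (Fin m) (Fin m) A :=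
  Matrix.of fun i j =>
    if h : (i : ℕ) < n ∧ (j : ℕ) < n then x ⟨i, h.1⟩ ⟨j, h.2⟩ else if i = j then 1 else 0

variable {A}

lemma pad_apply {n m : ℕ} (x : Matrix (Fin n) (Fin n) A) (i j : Fin m) :
    pad A x i j =
      if h : (i : ℕ) < n ∧ (j : ℕ) < n then x ⟨i, h.1⟩ ⟨j, h.2⟩ else if i = j then 1 else 0 := rfl

lemma pad_self {n : ℕ} (x : Matrix (Fin n) (Fin n) A) : pad A (m := n) x = x := by
  ext i j
  rw [pad_apply, dif_pos ⟨i.2, j.2⟩]

lemma pad_one {n m : ℕ} : pad A (n := n) (m := m) 1 = 1 := by
  ext i j
  rw [pad_apply, Matrix.one_apply]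
  split_ifs with h h1
  · rw [Matrix.one_apply]; simp [h1]
  · rw [Matrix.one_apply, if_neg (fun h2 => h1 (Fin.ext (by simpa using h2)))]
  · rfl
  · rfl

lemma pad_pad {n m k : ℕ} (h : n ≤ m) (x : Matrix (Fin n) (Fin n) A) :
    pad A (m := k) (pad A (m := m) x) = pad A (m := k) x := by
  ext i j
  simp only [pad_apply]
  by_cases h1 : (i : ℕ) < n ∧ (j : ℕ) < n
  · have h2 : (i : ℕ) < m ∧ (j : ℕ) < m := ⟨h1.1.trans_le h, h1.2.trans_le h⟩
    rw [dif_pos h2, dif_pos h1, dif_pos h1]
  · rw [dif_neg h1]
    by_cases h2 : (i : ℕ) < m ∧ (j : ℕ) < m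
    · rw [dif_pos h2, dif_neg h1]
      by_cases h3 : i = j
      · subst h3; simp
      · rw [if_neg h3, if_neg (fun h4 => h3 (Fin.ext (by simpa using h4)))]
    · rw [dif_neg h2]

lemma pad_mul {n m : ℕ} (h : n ≤ m) (x y : Matrix (Fin n) (Fin n) A) :
    pad A (m := m) (x * y) = pad A x * pad A y := by
  obtain ⟨k, rfl⟩ := Nat.exists_eq_add_of_le h
  have h1 : ∀ (a : Fin k) (b : Fin n), ¬ (Fin.natAdd n a = Fin.castAdd k b) := fun a b h => by
    have := congrArg Fin.val h; simp at this; omega
  have h2 : ∀ (a : Fin k) (b : Fin n), ¬ (Fin.castAdd k b = Fin.natAdd n a) := fun a b h =>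
    h1 a b h.symm
  ext i j
  rw [Matrix.mul_apply, Fin.sum_univ_add]
  induction i using Fin.addCases with
  | left i =>
    induction j using Fin.addCases with
    | left j => simp [pad_apply, Matrix.mul_apply, h1]
    | right j => simp [pad_apply, h2]
  | right i =>
    induction j using Fin.addCases with
    | left j => simp [pad_apply, h1]
    | right j => simp [pad_apply, h1]

variable (A)

/-- The embedding `x ↦ diag(x, 1)` as a homomorphism of multiplicative monoids. -/
def padHom {n m : ℕ} (h : n ≤ m) : Matrix (Fin n) (Fin n) A →* Matrix (Fin m) (Fin m) A where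
  toFun := pad A
  map_one' := pad_one
  map_mul' := pad_mul h

/-- The embedding `A = M_1(A)`. -/
def oneByOne : A →* Matrix (Fin 1) (Fin 1) A where
  toFun a := Matrix.diagonal fun _ => a
  map_one' := Matrix.diagonal_one
  map_mul' _ _ := (Matrix.diagonal_mul_diagonal _ _).symm

end Pad

section KOne

variable (A : Type u) [Ring A] [TopologicalSpace A] [IsTopologicalRing A]

omit [IsTopologicalRing A] in
lemma continuous_padHom {n m : ℕ} (h : n ≤ m) : Continuous (padHom A h) := by
  refine continuous_pi fun i => continuous_pi fun j => ?_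
  show Continuous fun x => pad A x i j
  simp only [pad_apply]
  split_ifs
  · fun_prop
  · exact continuous_const
  · exact continuous_const

omit [IsTopologicalRing A] in
lemma continuous_oneByOne : Continuous (oneByOne A) := by
  show Continuous fun a : A => (Matrix.diagonal fun _ => a : Matrix (Fin 1) (Fin 1) A)
  fun_prop

/-- The group `inv(M_{n+1}(A)) / inv_0(M_{n+1}(A))`. -/
def Level (n : ℕ) : Type u := ComponentGroup (Matrix (Fin (n + 1)) (Fin (n + 1)) A)ˣ

instance group_Level (n : ℕ) : Group (Level A n) :=
  group_ComponentGroup (Matrix (Fin (n + 1)) (Fin (n + 1)) A)ˣ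

/-- The group homomorphisms from `inv(M_{n+1}(A)) / inv_0(M_{n+1}(A))` to
`inv(M_{m+1}(A)) / inv_0(M_{m+1}(A))`. -/
def LevelHom (n m : ℕ) : Type u := Level A n →* Level A m

instance funLike_LevelHom (n m : ℕ) : FunLike (LevelHom A n m) (Level A n) (Level A m) :=
  MonoidHom.instFunLike

instance monoidHomClass_LevelHom (n m : ℕ) :
    MonoidHomClass (LevelHom A n m) (Level A n) (Level A m) :=
  MonoidHom.instMonoidHomClass

/-- The homomorphism `inv(M_{n+1}(A)) / inv_0 → inv(M_{m+1}(A)) / inv_0` induced by
`x ↦ diag(x, 1)`, for `n ≤ m`. -/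
def stab (n m : ℕ) (h : n ≤ m) : LevelHom A n m :=
  ComponentGroup.map (Units.map (padHom A (Nat.succ_le_succ h)))
    (Continuous.units_map _ (continuous_padHom A _))

instance directedSystem_stab : DirectedSystem (Level A) (fun n m h => stab A n m h) where
  map_self n x := by
    induction x using QuotientGroup.induction_on with
    | H g =>
      show QuotientGroup.mk _ = QuotientGroup.mk _
      congr 1
      ext1
      exact pad_self _
  map_map k m n hnm hmk x := by
    induction x using QuotientGroup.induction_on with
    | H g =>
      show QuotientGroup.mk _ = QuotientGroup.mk _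
      congr 1
      ext1
      exact pad_pad (Nat.succ_le_succ hnm) _

/-- The topological `K_1`-group of `A`: the direct limit of the groups
`inv(M_n(A)) / inv_0(M_n(A))`, `n ≥ 1`, under the embeddings `x ↦ diag(x, 1)`. -/
def KOne : Type u := DirectLimit (Level A) (stab A)

noncomputable instance group_KOne : Group (KOne A) :=
  (inferInstance : Group (DirectLimit (Level A) (stab A)))

/-- The canonical homomorphism from `inv(M_{n+1}(A)) / inv_0(M_{n+1}(A))` to the direct limit. -/
noncomputable def toLimit (n : ℕ) : Level A n →* KOne A where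
  toFun x := ⟦⟨n, x⟩⟧
  map_one' := (DirectLimit.one_def n).symm
  map_mul' x y := (DirectLimit.mul_def n x y).symm

/-- The natural map `inv(A) / inv_0(A) → K_1(A)`, induced by the inclusion `A = M_1(A)`. -/
noncomputable def naturalMap : ComponentGroup Aˣ →* KOne A :=
  (toLimit A 0).comp (ComponentGroup.map (Units.map (oneByOne A))
    (Continuous.units_map _ (continuous_oneByOne A)))

end KOne

section Reindex

/-- The bijection used to compare the two ways of writing block matrices. -/
def re (n k : ℕ) : Fin (n + 1) ⊕ Fin k ≃ Fin (n + k + 1) :=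
  finSumFinEquiv.trans (finCongr (by omega))

lemma re_inl (n k : ℕ) (i : Fin (n + 1)) : ((re n k (Sum.inl i) : Fin (n + k + 1)) : ℕ) = i := by
  simp [re]

lemma re_inr (n k : ℕ) (i : Fin k) :
    ((re n k (Sum.inr i) : Fin (n + k + 1)) : ℕ) = n + 1 + i := by
  simp [re]

variable (A : Type u) [Ring A]

/-- Reindexing as a monoid homomorphism. -/
def reHom (n k : ℕ) : Matrix (Fin (n + 1) ⊕ Fin k) (Fin (n + 1) ⊕ Fin k) A →*
    Matrix (Fin (n + k + 1)) (Fin (n + k + 1)) A where
  toFun X := Matrix.reindex (re n k) (re n k) X
  map_one' := by simp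
  map_mul' X Y := by simp [Matrix.submatrix_mul_equiv]

lemma continuous_reHom [TopologicalSpace A] (n k : ℕ) : Continuous (reHom A n k) := by
  show Continuous fun X : Matrix (Fin (n + 1) ⊕ Fin k) (Fin (n + 1) ⊕ Fin k) A =>
    Matrix.reindex (re n k) (re n k) X
  fun_prop

variable {A}

lemma reindex_fromBlocks (n k : ℕ) (X : Matrix (Fin (n + 1)) (Fin (n + 1)) A) :
    Matrix.reindex (re n k) (re n k) (Matrix.fromBlocks X 0 0 1) = pad A X := by
  ext i j
  obtain ⟨i, rfl⟩ := (re n k).surjective i
  obtain ⟨j, rfl⟩ := (re n k).surjective j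
  rw [pad_apply]
  simp only [Matrix.reindex_apply, Matrix.submatrix_apply, Equiv.symm_apply_apply,
    (re n k).injective.eq_iff]
  rcases i with i | i <;> rcases j with j | j
  · rw [dif_pos ⟨by rw [re_inl]; exact i.2, by rw [re_inl]; exact j.2⟩]
    simp [re_inl]
  · rw [dif_neg (fun h => by have := h.2; rw [re_inr] at this; omega)]
    simp
  · rw [dif_neg (fun h => by have := h.1; rw [re_inr] at this; omega)]
    simp
  · rw [dif_neg (fun h => by have := h.1; rw [re_inr] at this; omega)]
    simp [Matrix.one_apply]

lemma reindex_diagonal (n k : ℕ) (a : A) :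
    Matrix.reindex (re n k) (re n k)
      (Matrix.diagonal fun i : Fin (n + 1) ⊕ Fin k => if i = Sum.inl 0 then a else 1) =
      pad A (Matrix.diagonal fun _ : Fin (0 + 1) => a) := by
  ext i j
  obtain ⟨i, rfl⟩ := (re n k).surjective i
  obtain ⟨j, rfl⟩ := (re n k).surjective j
  rw [pad_apply]
  simp only [Matrix.reindex_apply, Matrix.submatrix_apply, Equiv.symm_apply_apply,
    (re n k).injective.eq_iff]
  rcases i with i | i <;> rcases j with j | j
  · simp only [re_inl, Matrix.diagonal_apply]
    by_cases hi : i = 0 <;> by_cases hj : j = 0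
    · subst hi hj; simp
    · have : ¬ ((j : ℕ) = 0) := fun h => hj (Fin.ext h)
      subst hi; simp [this, Ne.symm hj]
    · have : ¬ ((i : ℕ) = 0) := fun h => hi (Fin.ext h)
      subst hj; simp [this, hi]
    · have : ¬ ((i : ℕ) = 0) := fun h => hi (Fin.ext h)
      simp [this, hi]
  · simp [re_inl, re_inr]
  · simp [re_inl, re_inr]
  · simp [re_inr, Matrix.diagonal_apply]

end Reindex

/-- A unital ring `A` with a complex algebra structure is purely infinite simple if `A ≠ ℂ` and for
every nonzero `a` there are `b`, `c` with `b a c = 1`. -/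
def PurelyInfiniteSimple (A : Type u) [Ring A] [Algebra ℂ A] : Prop :=
  ¬ Function.Surjective (algebraMap ℂ A) ∧ ∀ a : A, a ≠ 0 → ∃ b c : A, b * a * c = 1

/-- For every purely infinite simple unital complex Banach algebra `A`, the natural map
`inv(A) / inv_0(A) → K_1(A)` is a group isomorphism. -/
theorem result (A : Type u) [NormedRing A] [NormedAlgebra ℂ A] [CompleteSpace A] [Nontrivial A]
    (hA : PurelyInfiniteSimple A) :
    ∃ e : ComponentGroup Aˣ ≃* KOne A, ∀ x, e x = naturalMap A x := by
  obtain ⟨hne, hpi⟩ := hA
  have hnd : ∃ x : A, x ≠ 0 ∧ ¬ IsUnit x := by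
    by_contra hcon
    push Not at hcon
    have hunit : ∀ {a : A}, IsUnit a ↔ a ≠ 0 := fun {a} => ⟨fun h => h.ne_zero, hcon a⟩
    exact hne (NormedRing.algEquivComplexOfComplete (A := A) hunit).surjective
  obtain ⟨hinj, hsurj⟩ := Pool.Agent.Helper78.KOne.bij A hnd hpi
  have hbij : Function.Bijective (naturalMap A) := by
    constructor
    · rw [injective_iff_map_eq_one]
      intro x hx
      induction x using QuotientGroup.induction_on with
      | H a =>
        have h1 : (⟦⟨0, ComponentGroup.map (Units.map (oneByOne A))
            (Continuous.units_map _ (continuous_oneByOne A)) (QuotientGroup.mk a)⟩⟧ : KOne A) = 1 :=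
          hx
        rw [DirectLimit.exists_eq_one] at h1
        obtain ⟨m, hm, h2⟩ := h1
        have h3 : (QuotientGroup.mk (Units.map (padHom A (Nat.succ_le_succ hm))
          (Units.map (oneByOne A) a)) : Level A m) = 1 := h2
        replace h3 := (QuotientGroup.eq_one_iff _).mp h3
        refine (QuotientGroup.eq_one_iff (N := Subgroup.connectedComponentOfOne Aˣ) a).mpr
          (hinj m a _ ?_ h3)
        show pad A (Matrix.diagonal fun _ : Fin 1 => (a : A)) = _
        ext i j
        rw [pad_apply, Matrix.diagonal_apply]
        by_cases h : (i : ℕ) < 0 + 1 ∧ (j : ℕ) < 0 + 1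
        · have hi : i = 0 := Fin.ext (by simpa using h.1)
          have hj : j = 0 := Fin.ext (by simpa using h.2)
          subst hi hj
          simp
        · rw [dif_neg h]
          by_cases hij : i = j
          · subst hij
            have hi : i ≠ 0 := by
              rintro rfl
              exact h (by simp)
            simp [hi]
          · simp [hij]
    · intro z
      induction z using DirectLimit.induction with
      | _ n x =>
        induction x using QuotientGroup.induction_on with
        | H U =>
          obtain ⟨k, a, V, W, hV, hW, hWV⟩ := hsurj n U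
          refine ⟨QuotientGroup.mk a, ?_⟩
          let V' := Units.map (reHom A n k) V
          let W' := Units.map (reHom A n k) W
          have hV' : V' = Units.map (padHom A (Nat.succ_le_succ (Nat.le_add_right n k))) U := by
            ext1
            show Matrix.reindex (re n k) (re n k) V.val = pad A U.val
            rw [hV]
            exact reindex_fromBlocks n k _
          have hW' : W' = Units.map (padHom A (Nat.succ_le_succ (Nat.zero_le (n + k))))
              (Units.map (oneByOne A) a) := by
            ext1
            show Matrix.reindex (re n k) (re n k) W.val = pad A (Matrix.diagonal fun _ => (a : A))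
            rw [hW]
            exact reindex_diagonal n k _
          have hcomp : W' ∈ connectedComponent V' := by
            have h := (Continuous.units_map _ (continuous_reHom A n k)).image_connectedComponent_subset
              V
            exact h ⟨W, hWV, rfl⟩
          have hcomp2 : V' ∈ connectedComponent W' := by
            rw [← connectedComponent_eq hcomp]
            exact mem_connectedComponent
          have hmem : W'⁻¹ * V' ∈ connectedComponent (1 : (Matrix (Fin (n + k + 1))
              (Fin (n + k + 1)) A)ˣ) := by
            have hc : Continuous (fun x : (Matrix (Fin (n + k + 1)) (Fin (n + k + 1)) A)ˣ =>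
              W'⁻¹ * x) := by fun_prop
            have h := hc.image_connectedComponent_subset W'
            have h4 : W'⁻¹ * V' ∈ connectedComponent (W'⁻¹ * W') := h ⟨V', hcomp2, rfl⟩
            rwa [inv_mul_cancel] at h4
          have heq : stab A 0 (n + k) (Nat.zero_le _) (ComponentGroup.map
              (Units.map (oneByOne A)) (Continuous.units_map _ (continuous_oneByOne A))
              (QuotientGroup.mk a)) =
              stab A n (n + k) (Nat.le_add_right n k) (QuotientGroup.mk U) := by
            show (QuotientGroup.mk (Units.map (padHom A (Nat.succ_le_succ (Nat.zero_le (n + k))))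
              (Units.map (oneByOne A) a)) : Level A (n + k)) = QuotientGroup.mk
                (Units.map (padHom A (Nat.succ_le_succ (Nat.le_add_right n k))) U)
            rw [← hV', ← hW', QuotientGroup.eq]
            exact hmem
          show (⟦⟨0, _⟩⟧ : KOne A) = ⟦⟨n, _⟩⟧
          exact Quotient.sound ⟨n + k, Nat.zero_le _, Nat.le_add_right n k, heq⟩
  exact ⟨MulEquiv.ofBijective (naturalMap A) hbij, fun x => rfl⟩

end Pool.Agent.Results.MP_d4e048_an.NaturalMapIso
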